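import Pool.Agent.Helper13.Rel.T3b

/-!
# Localized integral means (Pommerenke's differential inequality)
-/

namespace Pool.Agent.Helper13.Rel

open Complex MeasureTheory Set Metric Filter Topology
open scoped Real

/-- A zero-free analytic function on the disc has an analytic logarithm. -/
theorem exists_log {g : ℂ → ℂ} (hg : DifferentiableOn ℂ g (ball 0 1))
    (hg0 : ∀ z ∈ ball (0 : ℂ) 1, g z ≠ 0) :
    ∃ l : ℂ → ℂ, (∀ z ∈ ball (0 : ℂ) 1, HasDerivAt l (deriv g z / g z) z) ∧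
      ∀ z ∈ ball (0 : ℂ) 1, exp (l z) = g z := by
  have hd : DifferentiableOn ℂ (fun z => deriv g z / g z) (ball 0 1) :=
    (hg.deriv isOpen_ball).div hg hg0
  have h00 : (0 : ℂ) ∈ ball (0 : ℂ) 1 := mem_ball_self one_pos
  obtain ⟨l, hl0, hl⟩ := hd.isExactOn_ball.with_val_at 0 (Complex.log (g 0))
  refine ⟨l, hl, ?_⟩
  have hdg : ∀ z ∈ ball (0 : ℂ) 1, HasDerivAt g (deriv g z) z := fun z hz =>
    (hg.differentiableAt (isOpen_ball.mem_nhds hz)).hasDerivAt
  have hq : ∀ z ∈ ball (0 : ℂ) 1, HasDerivAt (fun z => g z * exp (-l z)) 0 z := by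
    intro z hz
    refine ((hdg z hz).mul ((hl z hz).neg.cexp)).congr_deriv ?_
    field_simp [hg0 z hz]
    ring
  have hdiff : DifferentiableOn ℂ (fun z => g z * exp (-l z)) (ball 0 1) := fun z hz =>
    (hq z hz).differentiableAt.differentiableWithinAt
  intro z hz
  have hconst := (convex_ball (0 : ℂ) 1).is_const_of_fderivWithin_eq_zero (𝕜 := ℂ) hdiff
    (fun x hx => by
      rw [fderivWithin_of_isOpen isOpen_ball hx]
      ext
      simpa using (hq x hx).deriv) hz h00
  rw [hl0] at hconst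
  have e0 : g 0 * exp (-Complex.log (g 0)) = 1 := by
    rw [Complex.exp_neg, Complex.exp_log (hg0 0 h00), mul_inv_cancel₀ (hg0 0 h00)]
  rw [e0, Complex.exp_neg] at hconst
  have hne : exp (l z) ≠ 0 := Complex.exp_ne_zero _
  field_simp at hconst
  exact hconst.symm

/-- The quadratic mean of the Cauchy kernel. -/
theorem kernel_int {w : ℂ} (hw : ‖w‖ < 1) (a : ℝ) :
    ∫ τ in a..(a + 2 * π), ‖(1 - w * exp (τ * I))⁻¹‖ ^ 2 = 2 * π / (1 - ‖w‖ ^ 2) := by
  have hper : Function.Periodic (fun τ : ℝ => ‖(1 - w * exp (τ * I))⁻¹‖ ^ 2) (2 * π) := by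
    intro τ
    have : exp (((τ + 2 * π : ℝ) : ℂ) * I) = exp (τ * I) := by
      push_cast
      rw [add_mul]
      exact Complex.exp_periodic _
    simp only [this]
  rw [hper.intervalIntegral_add_eq a 0, zero_add]
  have hw' : (starRingEnd ℂ) w ∈ ball (0 : ℂ) 1 := by
    rw [mem_ball_zero_iff, RCLike.norm_conj]; exact hw
  have hP := (diffContOnCl_const (𝕜 := ℂ) (c := (1 : ℂ)) (s := ball (0 : ℂ) 1)).circleAverage_poissonKernel_smul' hw'
  rw [Real.circleAverage_def] at hP
  have hpos : 0 < 1 - ‖w‖ ^ 2 := by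
    have := norm_nonneg w
    nlinarith
  have e : ∀ θ : ℝ, ((‖circleMap 0 1 θ - 0‖ ^ 2 - ‖(starRingEnd ℂ) w - 0‖ ^ 2) /
      ‖(circleMap 0 1 θ - 0) - ((starRingEnd ℂ) w - 0)‖ ^ 2) • (1 : ℂ) =
      ((((1 - ‖w‖ ^ 2) * ‖(1 - w * exp (θ * I))⁻¹‖ ^ 2 : ℝ)) : ℂ) := by
    intro θ
    have h1 : ‖circleMap 0 1 θ - 0‖ = 1 := by simp
    have h2 : ‖(starRingEnd ℂ) w - 0‖ = ‖w‖ := by simp
    have h3 : ‖(circleMap 0 1 θ - 0) - ((starRingEnd ℂ) w - 0)‖ = ‖1 - w * exp (θ * I)‖ := by
      have : (circleMap 0 1 θ - 0) - ((starRingEnd ℂ) w - 0) =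
          circleMap 0 1 θ * (starRingEnd ℂ) (1 - w * exp (θ * I)) := by
        simp only [circleMap, sub_zero, zero_add, ofReal_one, one_mul, map_sub, map_one, map_mul,
          ← Complex.exp_conj, conj_ofReal, conj_I]
        rw [mul_sub, mul_one, mul_comm (exp (θ * I)), mul_assoc, ← Complex.exp_add]
        simp
      rw [this, norm_mul, RCLike.norm_conj]
      simp
    rw [h1, h2, h3, Complex.real_smul, mul_one, norm_inv]
    push_cast
    rw [one_pow, div_eq_mul_inv, inv_pow]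
  simp_rw [e] at hP
  rw [intervalIntegral.integral_ofReal, intervalIntegral.integral_const_mul,
    Complex.real_smul, ← Complex.ofReal_mul] at hP
  have hP' : (2 * π)⁻¹ * ((1 - ‖w‖ ^ 2) *
    ∫ θ in (0 : ℝ)..(2 * π), ‖(1 - w * exp (θ * I))⁻¹‖ ^ 2) = 1 := by exact_mod_cast hP
  have hpi := Real.pi_pos
  generalize ∫ θ in (0 : ℝ)..(2 * π), ‖(1 - w * exp (θ * I))⁻¹‖ ^ 2 = Q at hP' ⊢
  rw [eq_div_iff hpos.ne']
  field_simp at hP'
  linarith

/-- The main estimate of the localized integral means. -/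
theorem integral_means {g : ℂ → ℂ} (hg : DifferentiableOn ℂ g (ball 0 1))
    (hg0 : ∀ z ∈ ball (0 : ℂ) 1, g z ≠ 0)
    (hpre : ∀ s : ℝ, 0 < s → ∀ z : ℂ, ‖z‖ = Real.exp (-s) →
      ‖z * deriv g z / g z - 1 / (s : ℂ)‖ ≤ 2 / s)
    {A : ℝ} (hA : ∀ s : ℝ, 0 < s → s ≤ 1 → ∀ z : ℂ, ‖z‖ = Real.exp (-s) → ‖g z‖ ≤ A / s)
    {p β : ℝ} (hp : 0 < p) (hβ : 0 < β) (hpβ : 0 < β ^ 2 + (1 - 2 * p) * β - 3 * p ^ 2) :
    ∃ C : ℝ, ∀ t : ℝ, 0 < t → t ≤ 1 → ∀ τ₀ s : ℝ, 0 < s → s ≤ t →
      ∫ τ in (τ₀ - t)..(τ₀ + t), ‖g (exp (-(s : ℂ) + τ * I))‖ ^ p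
        ≤ C * t ^ (1 - p) * (t / s) ^ β := by
  obtain ⟨l, hl, hexpl⟩ := exists_log hg hg0
  set δ : ℝ := β ^ 2 + (1 - 2 * p) * β - 3 * p ^ 2 with hδ
  set η : ℝ := min 1 (δ / (32 * (p + 1))) with hη
  have hη0 : 0 < η := lt_min one_pos (by positivity)
  have hη1 : η ≤ 1 := min_le_left _ _
  have hη2 : 16 * (p + 1) * η < δ := by
    have h1 : η ≤ δ / (32 * (p + 1)) := min_le_right _ _
    rw [le_div_iff₀ (by positivity)] at h1
    nlinarith
  set L : ℝ := 3 * p ^ 2 + 16 * p * η + 16 * η ^ 2 with hL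
  have hL0 : 0 ≤ L := by positivity
  have hLβ : L < β ^ 2 + β - 2 * p * β := by
    have : η ^ 2 ≤ η := by nlinarith
    nlinarith
  have hA0 : 0 ≤ A := by
    have h := hA 1 one_pos le_rfl ((Real.exp (-1) : ℝ) : ℂ) (by
      rw [Complex.norm_real, Real.norm_eq_abs, abs_of_pos (Real.exp_pos _)])
    rw [div_one] at h
    exact (norm_nonneg _).trans h
  set C0 : ℝ := (A / η) ^ p * (4 * π) * (1 + (3 * p + 4) / β) + 1 with hC0
  have hApos : 0 ≤ (A / η) ^ p := Real.rpow_nonneg (by positivity) _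
  have hpi := Real.pi_pos
  have hC0pos : 0 < C0 := by positivity
  refine ⟨25 / 4 * C0 + 2 * (A / η) ^ p, ?_⟩
  intro t ht ht1 τ₀ s hs hst
  -- basic continuity of the integrand
  have hzball : ∀ (x : ℝ) (τ : ℝ), 0 < x → exp (-(x : ℂ) + τ * I) ∈ ball (0 : ℂ) 1 := by
    intro x τ hx
    rw [mem_ball_zero_iff, Complex.norm_exp]
    simpa using hx
  have hznorm : ∀ (x : ℝ) (τ : ℝ), ‖exp (-(x : ℂ) + τ * I)‖ = Real.exp (-x) := by
    intro x τ
    rw [Complex.norm_exp]; simp
  have hgcont : ∀ x : ℝ, 0 < x → Continuous (fun τ : ℝ => ‖g (exp (-(x : ℂ) + τ * I))‖ ^ p) := by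
    intro x hx
    have h1 : Continuous (fun τ : ℝ => exp (-(x : ℂ) + τ * I)) := by fun_prop
    have h2 : Continuous (fun τ : ℝ => g (exp (-(x : ℂ) + τ * I))) := by
      rw [← continuousOn_univ] at h1 ⊢
      exact hg.continuousOn.comp h1 (fun τ _ => hzball x τ hx)
    exact h2.norm.rpow_const (fun _ => Or.inr hp.le)
  have hts : 1 ≤ (t / s) ^ β := Real.one_le_rpow ((one_le_div hs).mpr hst) hβ.le
  have htp : 0 < t ^ (1 - p) := Real.rpow_pos_of_pos ht _
  rcases le_or_gt (η * t) s with hcase | hcase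
  · -- the easy range
    have hpt : ∀ τ : ℝ, ‖g (exp (-(s : ℂ) + τ * I))‖ ^ p ≤ (A / η) ^ p * t ^ (-p) := by
      intro τ
      have h1 := hA s hs (hst.trans ht1) _ (hznorm s τ)
      have h2 : A / s ≤ A / η * t⁻¹ := by
        rw [← div_eq_mul_inv, div_div]
        exact div_le_div_of_nonneg_left hA0 (by positivity) hcase
      calc ‖g (exp (-(s : ℂ) + τ * I))‖ ^ p ≤ (A / η * t⁻¹) ^ p :=
            Real.rpow_le_rpow (norm_nonneg _) (h1.trans h2) hp.le
        _ = (A / η) ^ p * t ^ (-p) := by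
            rw [Real.mul_rpow (by positivity) (by positivity), Real.inv_rpow ht.le,
              Real.rpow_neg ht.le]
    have h3 : ∫ τ in (τ₀ - t)..(τ₀ + t), ‖g (exp (-(s : ℂ) + τ * I))‖ ^ p ≤
        ∫ _τ in (τ₀ - t)..(τ₀ + t), (A / η) ^ p * t ^ (-p) := by
      apply intervalIntegral.integral_mono_on (by linarith)
      · exact (hgcont s hs).intervalIntegrable _ _
      · exact intervalIntegrable_const
      · intro τ _; exact hpt τ
    rw [intervalIntegral.integral_const] at h3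
    have h4 : (τ₀ + t - (τ₀ - t)) • ((A / η) ^ p * t ^ (-p)) = 2 * (A / η) ^ p * t ^ (1 - p) := by
      rw [smul_eq_mul, show (1 - p : ℝ) = 1 + -p by ring, Real.rpow_add ht, Real.rpow_one]
      ring
    rw [h4] at h3
    have h5 : 2 * (A / η) ^ p * t ^ (1 - p) ≤
        (25 / 4 * C0 + 2 * (A / η) ^ p) * t ^ (1 - p) := by
      apply mul_le_mul_of_nonneg_right _ htp.le
      linarith
    calc _ ≤ _ := h3
      _ ≤ _ := h5
      _ ≤ _ := le_mul_of_one_le_right (by positivity) hts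
  · -- the main range
    set c : ℂ := ((1 - t / 2 : ℝ) : ℂ) * exp (-(τ₀ : ℂ) * I) with hc
    have hcn : ‖c‖ = 1 - t / 2 := by
      rw [hc, norm_mul, Complex.norm_real, Complex.norm_exp]
      simp only [Real.norm_eq_abs]
      rw [abs_of_nonneg (by linarith)]
      simp
    set F : ℂ → ℂ := fun ζ => exp ((p / 2 : ℝ) * l (exp ζ)) * (1 - c * exp ζ)⁻¹ with hF
    have hexpball : ∀ ζ : ℂ, ζ.re < 0 → exp ζ ∈ ball (0 : ℂ) 1 := by
      intro ζ hζ
      rw [mem_ball_zero_iff, Complex.norm_exp]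
      simpa using hζ
    have hcz : ∀ ζ : ℂ, ζ.re < 0 → ‖c * exp ζ‖ ≤ 1 - t / 2 := by
      intro ζ hζ
      rw [norm_mul, hcn]
      have := mem_ball_zero_iff.mp (hexpball ζ hζ)
      exact mul_le_of_le_one_right (by linarith) this.le
    have hne : ∀ ζ : ℂ, ζ.re < 0 → 1 - c * exp ζ ≠ 0 := by
      intro ζ hζ h
      have h1 : c * exp ζ = 1 := (sub_eq_zero.mp h).symm
      have h2 := hcz ζ hζ
      rw [h1, norm_one] at h2
      linarith
    have hFder : ∀ ζ : ℂ, ζ.re < 0 → HasDerivAt F (F ζ * ((p / 2 : ℝ) *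
        (exp ζ * deriv g (exp ζ) / g (exp ζ)) + c * exp ζ / (1 - c * exp ζ))) ζ := by
      intro ζ hζ
      have h1 : HasDerivAt (fun ζ => l (exp ζ)) (deriv g (exp ζ) / g (exp ζ) * exp ζ) ζ :=
        (hl _ (hexpball ζ hζ)).comp ζ (Complex.hasDerivAt_exp ζ)
      have h2 := (h1.const_mul ((p / 2 : ℝ) : ℂ)).cexp
      have h3 := (((Complex.hasDerivAt_exp ζ).const_mul c).const_sub 1).inv (hne ζ hζ)
      refine (h2.mul h3).congr_deriv ?_
      have hu := hne ζ hζ
      have hgz := hg0 _ (hexpball ζ hζ)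
      simp only [hF, Pi.inv_apply]
      generalize 1 - c * exp ζ = u at hu ⊢
      generalize g (exp ζ) = gz at hgz ⊢
      field_simp
    have hFd : DifferentiableOn ℂ F {ζ | ζ.re < 0} := fun ζ hζ =>
      (hFder ζ hζ).differentiableAt.differentiableWithinAt
    have hper : ∀ ζ : ℂ, ζ.re < 0 → F (ζ + 2 * π * I) = F ζ := by
      intro ζ _
      simp only [hF, Complex.exp_periodic ζ]
    have hb : ∀ ζ : ℂ, ζ.re < 0 → ‖2 * deriv F ζ - ((p / (-ζ.re) : ℝ) : ℂ) * F ζ‖ ≤
        (2 * p / (-ζ.re) + 4 / t) * ‖F ζ‖ := by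
      intro ζ hζ
      rw [(hFder ζ hζ).deriv]
      have h1 := hpre (-ζ.re) (by linarith) (exp ζ) (by rw [Complex.norm_exp, neg_neg])
      have e : 2 * (F ζ * ((p / 2 : ℝ) * (exp ζ * deriv g (exp ζ) / g (exp ζ)) +
          c * exp ζ / (1 - c * exp ζ))) - ((p / (-ζ.re) : ℝ) : ℂ) * F ζ =
          (p * (exp ζ * deriv g (exp ζ) / g (exp ζ) - 1 / ((-ζ.re : ℝ) : ℂ)) +
            2 * (c * exp ζ / (1 - c * exp ζ))) * F ζ := by
        push_cast; ring
      rw [e, norm_mul]
      apply mul_le_mul_of_nonneg_right _ (norm_nonneg _)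
      refine (norm_add_le _ _).trans ?_
      apply add_le_add
      · rw [norm_mul, Complex.norm_real, Real.norm_eq_abs, abs_of_pos hp]
        calc p * _ ≤ p * (2 / -ζ.re) := mul_le_mul_of_nonneg_left h1 hp.le
          _ = _ := by ring
      · rw [norm_mul, norm_div, Complex.norm_ofNat]
        have h2 := hcz ζ hζ
        have h3 : t / 2 ≤ ‖1 - c * exp ζ‖ := by
          have := norm_sub_norm_le (1 : ℂ) (c * exp ζ)
          rw [norm_one] at this
          linarith
        have h4 : ‖c * exp ζ‖ / ‖1 - c * exp ζ‖ ≤ 1 / (t / 2) := by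
          apply div_le_div₀ zero_le_one (by linarith) (by positivity) h3
        calc 2 * (‖c * exp ζ‖ / ‖1 - c * exp ζ‖) ≤ 2 * (1 / (t / 2)) := by linarith
          _ = 4 / t := by field_simp; ring
    obtain ⟨v1, v2, hv1, hv2, hv2b, hv1b⟩ := mean_ode hFd hper (τ₀ - π) hp.le hb
    set v : ℝ → ℝ := fun s => ∫ τ in (τ₀ - π)..(τ₀ - π + 2 * π), ‖F (-(s : ℂ) + τ * I)‖ ^ 2 with hv
    -- the modulus of F
    have hFn : ∀ ζ : ℂ, ζ.re < 0 →
        ‖F ζ‖ ^ 2 = ‖g (exp ζ)‖ ^ p * ‖(1 - c * exp ζ)⁻¹‖ ^ 2 := by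
      intro ζ hζ
      simp only [hF]
      rw [norm_mul, mul_pow]
      congr 1
      rw [← hexpl _ (hexpball ζ hζ), Complex.norm_exp, Complex.norm_exp, ← Real.exp_nat_mul,
        ← Real.exp_mul]
      congr 1
      simp
      ring
    have hFcont : ∀ x : ℝ, 0 < x → Continuous (fun τ : ℝ => ‖F (-(x : ℂ) + τ * I)‖ ^ 2) := by
      intro x hx
      have h1 : Continuous (fun τ : ℝ => -(x : ℂ) + τ * I) := by fun_prop
      have h2 : Continuous (fun τ : ℝ => F (-(x : ℂ) + τ * I)) := by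
        rw [← continuousOn_univ] at h1 ⊢
        exact hFd.continuousOn.comp h1 (fun τ _ => by simpa using hx)
      exact h2.norm.pow 2
    have hv0 : ∀ x : ℝ, 0 < x → 0 ≤ v x := by
      intro x hx
      simp only [hv]
      exact intervalIntegral.integral_nonneg (by linarith) (fun τ _ => by positivity)
    set s0 : ℝ := η * t with hs0
    have hs0p : 0 < s0 := by positivity
    have hs0t : s0 ≤ t := by
      rw [hs0]; exact mul_le_of_le_one_left ht.le hη1
    -- initial value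
    have hvs0 : v s0 ≤ (A / η) ^ p * (4 * π) * t ^ (-p - 1) := by
      have hw : ‖c * exp (-(s0 : ℂ))‖ ≤ 1 - t / 2 := by
        apply hcz
        simpa using hs0p
      have hker := kernel_int (w := c * exp (-(s0 : ℂ))) (by linarith) (τ₀ - π)
      have h1 : v s0 ≤ ∫ τ in (τ₀ - π)..(τ₀ - π + 2 * π),
          (A / s0) ^ p * ‖(1 - c * exp (-(s0 : ℂ)) * exp (τ * I))⁻¹‖ ^ 2 := by
        simp only [hv]
        apply intervalIntegral.integral_mono_on (by linarith)
        · exact (hFcont s0 hs0p).intervalIntegrable _ _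
        · apply Continuous.intervalIntegrable
          apply continuous_const.mul
          have hcc : Continuous (fun τ : ℝ => 1 - c * exp (-(s0 : ℂ)) * exp (τ * I)) := by fun_prop
          apply (Continuous.norm _).pow 2
          apply hcc.inv₀
          intro τ
          have := hne (-(s0 : ℂ) + τ * I) (by simpa using hs0p)
          rwa [Complex.exp_add, ← mul_assoc] at this
        · intro τ _
          rw [hFn _ (by simpa using hs0p), Complex.exp_add, ← mul_assoc]
          apply mul_le_mul_of_nonneg_right _ (by positivity)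
          rw [← Complex.exp_add]
          exact Real.rpow_le_rpow (norm_nonneg _)
            (hA s0 hs0p (hs0t.trans ht1) _ (hznorm s0 τ)) hp.le
      rw [intervalIntegral.integral_const_mul, hker] at h1
      have h2 : 2 * π / (1 - ‖c * exp (-(s0 : ℂ))‖ ^ 2) ≤ 4 * π / t := by
        have h3 : t / 2 ≤ 1 - ‖c * exp (-(s0 : ℂ))‖ ^ 2 := by
          have := norm_nonneg (c * exp (-(s0 : ℂ)))
          nlinarith
        calc 2 * π / (1 - ‖c * exp (-(s0 : ℂ))‖ ^ 2) ≤ 2 * π / (t / 2) :=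
              div_le_div_of_nonneg_left (by positivity) (by positivity) h3
          _ = 4 * π / t := by field_simp; ring
      calc v s0 ≤ (A / s0) ^ p * (2 * π / (1 - ‖c * exp (-(s0 : ℂ))‖ ^ 2)) := h1
        _ ≤ (A / s0) ^ p * (4 * π / t) :=
            mul_le_mul_of_nonneg_left h2 (Real.rpow_nonneg (by positivity) _)
        _ = _ := by
            rw [hs0, ← div_div, div_eq_mul_inv (A / η) t, Real.mul_rpow (by positivity)
              (by positivity), Real.inv_rpow ht.le, ← Real.rpow_neg ht.le,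
              show (-p - 1 : ℝ) = -p + -1 by ring, Real.rpow_add ht, Real.rpow_neg_one]
            ring
    set M : ℝ := C0 * t ^ (-p - 1) with hM
    have htpp : 0 < t ^ (-p - 1) := Real.rpow_pos_of_pos ht _
    have hMpos : 0 < M := by positivity
    have hs0β : 0 < s0 ^ β := Real.rpow_pos_of_pos hs0p _
    have hKs : M * s0 ^ β * s0 ^ (-β) = M := by
      rw [mul_assoc, ← Real.rpow_add hs0p, add_neg_cancel, Real.rpow_zero, mul_one]
    have hV : v s0 * (1 + (3 * p + 4) / β) < M := by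
      calc v s0 * (1 + (3 * p + 4) / β)
          ≤ ((A / η) ^ p * (4 * π) * t ^ (-p - 1)) * (1 + (3 * p + 4) / β) :=
            mul_le_mul_of_nonneg_right hvs0 (by positivity)
        _ = (C0 - 1) * t ^ (-p - 1) := by rw [hC0]; ring
        _ < M := by rw [hM]; nlinarith
    have hv0s0 := hv0 s0 hs0p
    have hi0 : v s0 < M * s0 ^ β * s0 ^ (-β) := by
      rw [hKs]
      refine lt_of_le_of_lt ?_ hV
      exact le_mul_of_one_le_right hv0s0 (by
        have : 0 ≤ (3 * p + 4) / β := by positivity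
        linarith)
    have hi1 : -(β * (M * s0 ^ β) * s0 ^ (-β - 1)) < v1 s0 := by
      have h1 : β * (M * s0 ^ β) * s0 ^ (-β - 1) = β * M / s0 := by
        rw [show (-β - 1 : ℝ) = -β + -1 by ring, Real.rpow_add hs0p, Real.rpow_neg_one]
        rw [← mul_assoc, mul_assoc β, hKs]
        rfl
      rw [h1]
      have h2 := hv1b s0 hs0p
      have h3 : (3 * p / s0 + 4 / t) * v s0 ≤ (3 * p + 4) * v s0 / s0 := by
        have : 4 / t ≤ 4 / s0 := div_le_div_of_nonneg_left (by norm_num) hs0p hs0t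
        calc (3 * p / s0 + 4 / t) * v s0 ≤ (3 * p / s0 + 4 / s0) * v s0 := by gcongr
          _ = _ := by ring
      have h4 : (3 * p + 4) * v s0 / s0 < β * M / s0 := by
        apply div_lt_div_of_pos_right _ hs0p
        have h5 : v s0 * ((3 * p + 4) / β) < M := by
          refine lt_of_le_of_lt ?_ hV
          rw [mul_add, mul_one]; linarith
        have h6 := mul_lt_mul_of_pos_left h5 hβ
        calc (3 * p + 4) * v s0 = β * (v s0 * ((3 * p + 4) / β)) := by field_simp
          _ < _ := h6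
      have h7 := (abs_le.mp (h2.trans h3)).1
      linarith
    have hineq : ∀ x, 0 < x → x ≤ s0 → x ^ 2 * v2 x + 2 * p * x * v1 x ≤ L * v x := by
      intro x hx hxs
      have h1 := hv2b x hx
      have h2 : x ^ 2 * v2 x ≤ x ^ 2 * (((2 * p / x + 4 / t) ^ 2 - p ^ 2 / x ^ 2) * v x
          - 2 * p / x * v1 x) := mul_le_mul_of_nonneg_left h1 (by positivity)
      have h3 : x ^ 2 * (((2 * p / x + 4 / t) ^ 2 - p ^ 2 / x ^ 2) * v x
          - 2 * p / x * v1 x) = (3 * p ^ 2 + 16 * p * (x / t) + 16 * (x / t) ^ 2) * v x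
            - 2 * p * x * v1 x := by
        field_simp
        ring
      have h4 : x / t ≤ η := by
        rw [div_le_iff₀ ht]; exact hxs
      have h5 : 0 ≤ x / t := by positivity
      have h6 : (3 * p ^ 2 + 16 * p * (x / t) + 16 * (x / t) ^ 2) * v x ≤ L * v x := by
        apply mul_le_mul_of_nonneg_right _ (hv0 x hx)
        rw [hL]
        have : (x / t) ^ 2 ≤ η ^ 2 := by gcongr
        have : 16 * p * (x / t) ≤ 16 * p * η := by gcongr
        linarith
      linarith
    have hmain := ode_compare hL0 hLβ (by positivity : 0 < M * s0 ^ β) hv1 hv2 hineq hi0 hi1 hs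
      hcase.le
    -- localization
    have hloc : ∀ τ : ℝ, τ ∈ Icc (τ₀ - t) (τ₀ + t) →
        ‖g (exp (-(s : ℂ) + τ * I))‖ ^ p ≤ 25 / 4 * t ^ 2 * ‖F (-(s : ℂ) + τ * I)‖ ^ 2 := by
      intro τ hτ
      rw [hFn _ (by simpa using hs)]
      have h1 : ‖1 - c * exp (-(s : ℂ) + τ * I)‖ ≤ 5 / 2 * t := by
        have e1 : 1 - c * exp (-(s : ℂ) + τ * I) =
            -(exp (-(s : ℂ) + ((τ - τ₀ : ℝ) : ℂ) * I) - exp 0) +
              ((t / 2 : ℝ) : ℂ) * exp (-(s : ℂ) + ((τ - τ₀ : ℝ) : ℂ) * I) := by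
          rw [hc, mul_assoc, ← Complex.exp_add, Complex.exp_zero,
            show -(τ₀ : ℂ) * I + (-(s : ℂ) + τ * I) = -(s : ℂ) + ((τ - τ₀ : ℝ) : ℂ) * I by
              push_cast; ring]
          push_cast; ring
        have hre : (-(s : ℂ) + ((τ - τ₀ : ℝ) : ℂ) * I).re ≤ 0 := by simp; exact hs.le
        have e2 : ‖exp (-(s : ℂ) + ((τ - τ₀ : ℝ) : ℂ) * I) - exp 0‖ ≤
            1 * ‖(-(s : ℂ) + ((τ - τ₀ : ℝ) : ℂ) * I) - 0‖ := by
          apply Convex.norm_image_sub_le_of_norm_hasDerivWithin_le (s := {z : ℂ | z.re ≤ 0})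
            (f := exp) (f' := exp)
          · intro x _
            exact (Complex.hasDerivAt_exp x).hasDerivWithinAt
          · intro x hx
            rw [Complex.norm_exp]
            exact Real.exp_le_one_iff.mpr hx
          · exact convex_halfSpace_re_le 0
          · simp
          · exact hre
        have e3 : ‖(-(s : ℂ) + ((τ - τ₀ : ℝ) : ℂ) * I)‖ ≤ s + |τ - τ₀| := by
          refine (norm_add_le _ _).trans ?_
          rw [norm_neg, norm_mul, norm_I, mul_one, Complex.norm_real, Complex.norm_real,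
            Real.norm_eq_abs, Real.norm_eq_abs, abs_of_pos hs]
        have e4 : |τ - τ₀| ≤ t := by
          rw [abs_le]; constructor <;> linarith [hτ.1, hτ.2]
        have e5 : ‖exp (-(s : ℂ) + ((τ - τ₀ : ℝ) : ℂ) * I)‖ ≤ 1 := by
          rw [Complex.norm_exp]
          exact Real.exp_le_one_iff.mpr hre
        rw [e1]
        refine (norm_add_le _ _).trans ?_
        rw [norm_neg, norm_mul, Complex.norm_real, Real.norm_eq_abs, abs_of_pos (by positivity)]
        rw [sub_zero, one_mul] at e2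
        have e6 : t / 2 * ‖exp (-(s : ℂ) + ((τ - τ₀ : ℝ) : ℂ) * I)‖ ≤ t / 2 :=
          mul_le_of_le_one_right (by positivity) e5
        linarith
      have h2 := hne (-(s : ℂ) + τ * I) (by simpa using hs)
      have h3 : 0 < ‖1 - c * exp (-(s : ℂ) + τ * I)‖ := norm_pos_iff.mpr h2
      have h4 : 1 ≤ 25 / 4 * t ^ 2 * ‖(1 - c * exp (-(s : ℂ) + τ * I))⁻¹‖ ^ 2 := by
        rw [norm_inv, inv_pow, ← div_eq_mul_inv, one_le_div (by positivity)]
        calc _ ≤ (5 / 2 * t) ^ 2 := by gcongr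
          _ = _ := by ring
      calc ‖g (exp (-(s : ℂ) + τ * I))‖ ^ p = ‖g (exp (-(s : ℂ) + τ * I))‖ ^ p * 1 := by ring
        _ ≤ ‖g (exp (-(s : ℂ) + τ * I))‖ ^ p *
            (25 / 4 * t ^ 2 * ‖(1 - c * exp (-(s : ℂ) + τ * I))⁻¹‖ ^ 2) :=
            mul_le_mul_of_nonneg_left h4 (Real.rpow_nonneg (norm_nonneg _) _)
        _ = _ := by ring
    have hI : ∫ τ in (τ₀ - t)..(τ₀ + t), ‖g (exp (-(s : ℂ) + τ * I))‖ ^ p ≤
        25 / 4 * t ^ 2 * v s := by
      calc ∫ τ in (τ₀ - t)..(τ₀ + t), ‖g (exp (-(s : ℂ) + τ * I))‖ ^ p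
          ≤ ∫ τ in (τ₀ - t)..(τ₀ + t), 25 / 4 * t ^ 2 * ‖F (-(s : ℂ) + τ * I)‖ ^ 2 := by
            apply intervalIntegral.integral_mono_on (by linarith)
            · exact (hgcont s hs).intervalIntegrable _ _
            · exact (continuous_const.mul (hFcont s hs)).intervalIntegrable _ _
            · exact hloc
        _ = 25 / 4 * t ^ 2 * ∫ τ in (τ₀ - t)..(τ₀ + t), ‖F (-(s : ℂ) + τ * I)‖ ^ 2 := by
            rw [intervalIntegral.integral_const_mul]
        _ ≤ 25 / 4 * t ^ 2 * v s := by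
            apply mul_le_mul_of_nonneg_left _ (by positivity)
            simp only [hv]
            apply intervalIntegral.integral_mono_interval (by linarith [Real.pi_gt_three])
              (by linarith) (by linarith [Real.pi_gt_three])
            · exact Eventually.of_forall (fun τ => by positivity)
            · exact (hFcont s hs).intervalIntegrable _ _
    have hfin : v s ≤ M * (t / s) ^ β := by
      refine hmain.le.trans ?_
      rw [mul_assoc]
      apply mul_le_mul_of_nonneg_left _ hMpos.le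
      rw [Real.rpow_neg hs.le, ← div_eq_mul_inv, ← Real.div_rpow hs0p.le hs.le]
      exact Real.rpow_le_rpow (by positivity) (div_le_div_of_nonneg_right hs0t hs.le) hβ.le
    calc _ ≤ 25 / 4 * t ^ 2 * v s := hI
      _ ≤ 25 / 4 * t ^ 2 * (M * (t / s) ^ β) := mul_le_mul_of_nonneg_left hfin (by positivity)
      _ = (25 / 4 * C0) * t ^ (1 - p) * (t / s) ^ β := by
          have : t ^ 2 * t ^ (-p - 1) = t ^ (1 - p) := by
            rw [← Real.rpow_natCast t 2, ← Real.rpow_add ht]; congr 1; push_cast; ring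
          rw [hM, ← this]; ring
      _ ≤ _ := by
          apply mul_le_mul_of_nonneg_right _ (by positivity)
          apply mul_le_mul_of_nonneg_right _ htp.le
          linarith

end Pool.Agent.Helper13.Rel
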