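import Mathlib

/-!
# Integral means: differentiation under the integral and the ODE comparison
-/

namespace Pool.Agent.Helper13.Rel

open Complex MeasureTheory Set Metric Filter Topology
open scoped Real

/-- Differentiation under the integral sign, continuous case, on the half line `s > 0`. -/
theorem hasDerivAt_param {f f' : ℝ → ℝ → ℝ} {a b : ℝ} (hab : a ≤ b)
    (hf : ∀ s, 0 < s → ∀ τ, HasDerivAt (fun s => f s τ) (f' s τ) s)
    (hfc : ContinuousOn (fun q : ℝ × ℝ => f q.1 q.2) (Ioi 0 ×ˢ univ))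
    (hfc' : ContinuousOn (fun q : ℝ × ℝ => f' q.1 q.2) (Ioi 0 ×ˢ univ)) {s : ℝ} (hs : 0 < s) :
    HasDerivAt (fun s => ∫ τ in a..b, f s τ) (∫ τ in a..b, f' s τ) s := by
  have hcf : ∀ x, 0 < x → Continuous (fun τ => f x τ) := by
    intro x hx
    have : Continuous (fun τ : ℝ => ((x, τ) : ℝ × ℝ)) := by fun_prop
    rw [← continuousOn_univ] at this ⊢
    exact hfc.comp this (fun τ _ => ⟨hx, mem_univ _⟩)
  have hcf' : ∀ x, 0 < x → Continuous (fun τ => f' x τ) := by
    intro x hx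
    have : Continuous (fun τ : ℝ => ((x, τ) : ℝ × ℝ)) := by fun_prop
    rw [← continuousOn_univ] at this ⊢
    exact hfc'.comp this (fun τ _ => ⟨hx, mem_univ _⟩)
  have hK : IsCompact ((Icc (s / 2) (2 * s)) ×ˢ (Icc a b) : Set (ℝ × ℝ)) :=
    isCompact_Icc.prod isCompact_Icc
  obtain ⟨M, hM⟩ := hK.exists_bound_of_continuousOn (f := fun q : ℝ × ℝ => f' q.1 q.2)
    (hfc'.mono (by
      rintro ⟨x, y⟩ ⟨hx, _⟩
      exact ⟨lt_of_lt_of_le (by positivity) hx.1, mem_univ _⟩))
  refine (intervalIntegral.hasDerivAt_integral_of_dominated_loc_of_deriv_le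
    (s := Icc (s / 2) (2 * s)) (bound := fun _ => M) (F := f) (F' := f')
    (Icc_mem_nhds (by linarith) (by linarith)) ?_ ?_ ?_ ?_ ?_ ?_).2
  · filter_upwards [Ioi_mem_nhds hs] with x hx
    exact (hcf x hx).aestronglyMeasurable
  · exact (hcf s hs).intervalIntegrable _ _
  · exact (hcf' s hs).aestronglyMeasurable
  · refine Eventually.of_forall (fun t ht x hx => ?_)
    rw [uIoc_of_le hab] at ht
    exact hM (x, t) ⟨hx, ⟨ht.1.le, ht.2⟩⟩
  · exact intervalIntegrable_const
  · refine Eventually.of_forall (fun t _ x hx => ?_)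
    exact hf x (lt_of_lt_of_le (by positivity) hx.1) t

/-- Comparison lemma for the second order differential inequality. -/
theorem ode_compare {v v1 v2 : ℝ → ℝ} {p β L K s0 : ℝ} (hL : 0 ≤ L)
    (hLβ : L < β ^ 2 + β - 2 * p * β) (hK : 0 < K)
    (h1 : ∀ s, 0 < s → HasDerivAt v (v1 s) s) (h2 : ∀ s, 0 < s → HasDerivAt v1 (v2 s) s)
    (hineq : ∀ s, 0 < s → s ≤ s0 → s ^ 2 * v2 s + 2 * p * s * v1 s ≤ L * v s)
    (hi0 : v s0 < K * s0 ^ (-β)) (hi1 : -(β * K * s0 ^ (-β - 1)) < v1 s0)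
    {s : ℝ} (hs : 0 < s) (hss : s ≤ s0) : v s < K * s ^ (-β) := by
  set Y : ℝ → ℝ := fun s => K * s ^ (-β) - v s with hY
  set Y1 : ℝ → ℝ := fun s => -(β * K) * s ^ (-β - 1) - v1 s with hY1
  set Y2 : ℝ → ℝ := fun s => β * (β + 1) * K * s ^ (-β - 2) - v2 s with hY2
  have hd1 : ∀ s, 0 < s → HasDerivAt Y (Y1 s) s := by
    intro x hx
    have := ((Real.hasDerivAt_rpow_const (x := x) (p := -β) (Or.inl hx.ne')).const_mul K).sub
      (h1 x hx)
    refine HasDerivAt.congr_deriv this ?_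
    simp only [hY1]; ring
  have hd2 : ∀ s, 0 < s → HasDerivAt Y1 (Y2 s) s := by
    intro x hx
    have := ((Real.hasDerivAt_rpow_const (x := x) (p := -β - 1) (Or.inl hx.ne')).const_mul
      (-(β * K))).sub (h2 x hx)
    refine HasDerivAt.congr_deriv this ?_
    simp only [hY2]
    rw [show -β - 1 - 1 = -β - 2 by ring]; ring
  have hc1 : ∀ s, 0 < s → ContinuousAt Y1 s := fun s hs => (hd2 s hs).continuousAt
  -- main claim
  have hneg : ∀ s, 0 < s → s ≤ s0 → Y1 s < 0 := by
    by_contra hcon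
    push Not at hcon
    obtain ⟨s2, hs2, hs20, hY12⟩ := hcon
    have hcomp : IsCompact {x ∈ Icc s2 s0 | 0 ≤ Y1 x} := by
      have : ContinuousOn Y1 (Icc s2 s0) := fun x hx =>
        (hc1 x (lt_of_lt_of_le hs2 hx.1)).continuousWithinAt
      exact isCompact_Icc.of_isClosed_subset
        (this.preimage_isClosed_of_isClosed isClosed_Icc isClosed_Ici) (fun x hx => hx.1)
    obtain ⟨s1, hs1, hmax⟩ := hcomp.exists_isGreatest ⟨s2, ⟨⟨le_refl _, hs20⟩, hY12⟩⟩
    have hs1pos : 0 < s1 := lt_of_lt_of_le hs2 hs1.1.1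
    have hY10 : Y1 s0 < 0 := by simp only [hY1]; linarith
    have hs1lt : s1 < s0 := by
      rcases lt_or_eq_of_le hs1.1.2 with h | h
      · exact h
      · exfalso; have := hs1.2; rw [h] at this; linarith
    have hlt : ∀ x, s1 < x → x ≤ s0 → Y1 x < 0 := by
      intro x hx hx0
      by_contra hge
      push Not at hge
      exact absurd (hmax ⟨⟨hs1.1.1.trans hx.le, hx0⟩, hge⟩) (not_le.mpr hx)
    -- Y1 s1 = 0
    have hY1s1 : Y1 s1 = 0 := by
      apply le_antisymm _ hs1.2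
      have hev : ∀ᶠ x in 𝓝[>] s1, Y1 x ≤ 0 := by
        filter_upwards [Ioc_mem_nhdsGT hs1lt] with x hx
        exact (hlt x hx.1 hx.2).le
      exact le_of_tendsto ((hc1 s1 hs1pos).tendsto.mono_left nhdsWithin_le_nhds) hev
    -- Y s1 > 0
    have hYpos : 0 < Y s1 := by
      have hanti : AntitoneOn Y (Icc s1 s0) := by
        apply antitoneOn_of_deriv_nonpos (convex_Icc _ _)
        · exact fun x hx => (hd1 x (lt_of_lt_of_le hs1pos hx.1)).continuousAt.continuousWithinAt
        · rw [interior_Icc]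
          exact fun x hx => (hd1 x (hs1pos.trans hx.1)).differentiableAt.differentiableWithinAt
        · rw [interior_Icc]
          intro x hx
          rw [(hd1 x (hs1pos.trans hx.1)).deriv]
          exact (hlt x hx.1 hx.2.le).le
      have := hanti ⟨le_refl _, hs1lt.le⟩ ⟨hs1lt.le, le_refl _⟩ hs1lt.le
      have h0 : 0 < Y s0 := by simp only [hY]; linarith
      linarith
    -- Y2 s1 > 0
    have hY2pos : 0 < Y2 s1 := by
      have hpw : s1 ^ 2 * s1 ^ (-β - 2) = s1 ^ (-β) := by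
        rw [← Real.rpow_natCast s1 2, ← Real.rpow_add hs1pos]; congr 1; push_cast; ring
      have hpw1 : s1 * s1 ^ (-β - 1) = s1 ^ (-β) := by
        nth_rewrite 1 [← Real.rpow_one s1]
        rw [← Real.rpow_add hs1pos]; congr 1; ring
      have hin := hineq s1 hs1pos hs1.1.2
      have hP : 0 < s1 ^ (-β) := Real.rpow_pos_of_pos hs1pos _
      have hv : v s1 < K * s1 ^ (-β) := by simp only [hY] at hYpos; linarith
      have e1 : s1 ^ 2 * Y2 s1 + 2 * p * s1 * Y1 s1
          = (β ^ 2 + β - 2 * p * β) * (K * s1 ^ (-β)) - (s1 ^ 2 * v2 s1 + 2 * p * s1 * v1 s1) := by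
        have : s1 ^ 2 * Y2 s1 + 2 * p * s1 * Y1 s1
          = β * (β + 1) * K * (s1 ^ 2 * s1 ^ (-β - 2)) - 2 * p * β * K * (s1 * s1 ^ (-β - 1))
            - (s1 ^ 2 * v2 s1 + 2 * p * s1 * v1 s1) := by
          simp only [hY1, hY2]; ring
        rw [this, hpw, hpw1]; ring
      rw [hY1s1] at e1
      have hKP : 0 < K * s1 ^ (-β) := mul_pos hK hP
      have h3 : 0 < s1 ^ 2 * Y2 s1 := by
        have : L * v s1 ≤ L * (K * s1 ^ (-β)) := mul_le_mul_of_nonneg_left hv.le hL
        nlinarith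
      exact (mul_pos_iff_of_pos_left (by positivity)).mp h3
    -- contradiction
    have hder := hd2 s1 hs1pos
    rw [hasDerivAt_iff_tendsto_slope] at hder
    have hder' : Tendsto (slope Y1 s1) (𝓝[>] s1) (𝓝 (Y2 s1)) :=
      hder.mono_left (nhdsWithin_mono _ (fun x hx => ne_of_gt hx))
    have hev : ∀ᶠ x in 𝓝[>] s1, 0 < slope Y1 s1 x := hder'.eventually (Ioi_mem_nhds hY2pos)
    obtain ⟨x, hx1, hx2⟩ := (hev.and (Ioc_mem_nhdsGT hs1lt)).exists
    rw [slope_def_field, hY1s1, sub_zero] at hx1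
    have := hlt x hx2.1 hx2.2
    have h4 : Y1 x / (x - s1) < 0 := div_neg_of_neg_of_pos this (sub_pos.mpr hx2.1)
    linarith
  have hanti : AntitoneOn Y (Icc s s0) := by
    apply antitoneOn_of_deriv_nonpos (convex_Icc _ _)
    · exact fun x hx => (hd1 x (lt_of_lt_of_le hs hx.1)).continuousAt.continuousWithinAt
    · rw [interior_Icc]
      exact fun x hx => (hd1 x (hs.trans hx.1)).differentiableAt.differentiableWithinAt
    · rw [interior_Icc]
      intro x hx
      rw [(hd1 x (hs.trans hx.1)).deriv]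
      exact (hneg x (hs.trans hx.1) hx.2.le).le
  have := hanti ⟨le_refl _, hss⟩ ⟨hss, le_refl _⟩ hss
  have h0 : 0 < Y s0 := by simp only [hY]; linarith
  have : 0 < Y s := by linarith
  simp only [hY] at this
  linarith

end Pool.Agent.Helper13.Rel
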