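import Pool.Agent.Helper13.Rel.T3a

/-!
# Integral means: the differential inequality for the quadratic mean on vertical segments
-/

namespace Pool.Agent.Helper13.Rel

open Complex MeasureTheory Set Metric Filter Topology
open scoped Real

/-- Second order differential inequality for the quadratic mean of an analytic periodic
function on the left half plane. -/
theorem mean_ode {F : ℂ → ℂ} (hF : DifferentiableOn ℂ F {ζ | ζ.re < 0})
    (hper : ∀ ζ : ℂ, ζ.re < 0 → F (ζ + 2 * π * I) = F ζ) (a : ℝ) {p t : ℝ}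
    (hp : 0 ≤ p)
    (hb : ∀ ζ : ℂ, ζ.re < 0 →
      ‖2 * deriv F ζ - ((p / (-ζ.re) : ℝ) : ℂ) * F ζ‖ ≤ (2 * p / (-ζ.re) + 4 / t) * ‖F ζ‖) :
    ∃ v1 v2 : ℝ → ℝ,
      (∀ s, 0 < s →
        HasDerivAt (fun s : ℝ => ∫ τ in a..(a + 2 * π), ‖F (-(s : ℂ) + τ * I)‖ ^ 2) (v1 s) s) ∧
      (∀ s, 0 < s → HasDerivAt v1 (v2 s) s) ∧
      (∀ s, 0 < s → v2 s ≤ ((2 * p / s + 4 / t) ^ 2 - p ^ 2 / s ^ 2) *
          (∫ τ in a..(a + 2 * π), ‖F (-(s : ℂ) + τ * I)‖ ^ 2) - 2 * p / s * v1 s) ∧
      (∀ s, 0 < s → |v1 s| ≤ (3 * p / s + 4 / t) *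
          ∫ τ in a..(a + 2 * π), ‖F (-(s : ℂ) + τ * I)‖ ^ 2) := by
  have hopen : IsOpen {ζ : ℂ | ζ.re < 0} := isOpen_lt continuous_re continuous_const
  have hab : a ≤ a + 2 * π := by have := Real.pi_pos; linarith
  set Z : ℝ → ℝ → ℂ := fun s τ => -(s : ℂ) + τ * I with hZ
  have hZre : ∀ s τ, (Z s τ).re = -s := by intro s τ; simp [hZ]
  have hZneg : ∀ s τ, 0 < s → (Z s τ).re < 0 := by
    intro s τ hs; rw [hZre]; linarith
  have hF1 : DifferentiableOn ℂ (deriv F) {ζ | ζ.re < 0} := hF.deriv hopen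
  have hF2 : DifferentiableOn ℂ (deriv (deriv F)) {ζ | ζ.re < 0} := hF1.deriv hopen
  have dF : ∀ ζ : ℂ, ζ.re < 0 → HasDerivAt F (deriv F ζ) ζ := fun ζ hζ =>
    (hF.differentiableAt (hopen.mem_nhds hζ)).hasDerivAt
  have dF1 : ∀ ζ : ℂ, ζ.re < 0 → HasDerivAt (deriv F) (deriv (deriv F) ζ) ζ := fun ζ hζ =>
    (hF1.differentiableAt (hopen.mem_nhds hζ)).hasDerivAt
  -- derivatives of Z
  have hZs : ∀ s τ, HasDerivAt (fun s : ℝ => Z s τ) (-1) s := by
    intro s τ
    have h1 : HasDerivAt (fun s : ℝ => (s : ℂ)) 1 s := Complex.ofRealCLM.hasDerivAt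
    exact (h1.neg).add_const _
  have hZτ : ∀ s τ, HasDerivAt (fun τ : ℝ => Z s τ) I τ := by
    intro s τ
    have h1 : HasDerivAt (fun s : ℝ => (s : ℂ)) 1 τ := Complex.ofRealCLM.hasDerivAt
    exact ((h1.mul_const I).const_add (-(s : ℂ))).congr_deriv (by simp)
  have cs : ∀ s τ, 0 < s → HasDerivAt (fun s : ℝ => F (Z s τ)) (-deriv F (Z s τ)) s := by
    intro s τ hs
    have := HasDerivAt.scomp s (dF (Z s τ) (hZneg s τ hs)) (hZs s τ)
    simpa [Function.comp_def] using this
  have cs1 : ∀ s τ, 0 < s →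
      HasDerivAt (fun s : ℝ => deriv F (Z s τ)) (-deriv (deriv F) (Z s τ)) s := by
    intro s τ hs
    have := HasDerivAt.scomp s (dF1 (Z s τ) (hZneg s τ hs)) (hZs s τ)
    simpa [Function.comp_def] using this
  have cτ : ∀ s τ, 0 < s → HasDerivAt (fun τ : ℝ => F (Z s τ)) (I * deriv F (Z s τ)) τ := by
    intro s τ hs
    have := HasDerivAt.scomp τ (dF (Z s τ) (hZneg s τ hs)) (hZτ s τ)
    simpa [Function.comp_def] using this
  have cτ1 : ∀ s τ, 0 < s →
      HasDerivAt (fun τ : ℝ => deriv F (Z s τ)) (I * deriv (deriv F) (Z s τ)) τ := by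
    intro s τ hs
    have := HasDerivAt.scomp τ (dF1 (Z s τ) (hZneg s τ hs)) (hZτ s τ)
    simpa [Function.comp_def] using this
  -- continuity in two variables
  have hZc : Continuous (fun q : ℝ × ℝ => Z q.1 q.2) := by simp only [hZ]; fun_prop
  have hmaps : MapsTo (fun q : ℝ × ℝ => Z q.1 q.2) (Ioi 0 ×ˢ univ) {ζ : ℂ | ζ.re < 0} :=
    fun q hq => hZneg _ _ hq.1
  have K0 : ContinuousOn (fun q : ℝ × ℝ => F (Z q.1 q.2)) (Ioi 0 ×ˢ univ) :=
    hF.continuousOn.comp hZc.continuousOn hmaps
  have K1 : ContinuousOn (fun q : ℝ × ℝ => deriv F (Z q.1 q.2)) (Ioi 0 ×ˢ univ) :=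
    hF1.continuousOn.comp hZc.continuousOn hmaps
  have K2 : ContinuousOn (fun q : ℝ × ℝ => deriv (deriv F) (Z q.1 q.2)) (Ioi 0 ×ˢ univ) :=
    hF2.continuousOn.comp hZc.continuousOn hmaps
  -- continuity in τ
  have slice : ∀ {g : ℂ → ℂ}, ContinuousOn (fun q : ℝ × ℝ => g (Z q.1 q.2)) (Ioi 0 ×ˢ univ) →
      ∀ s, 0 < s → Continuous (fun τ => g (Z s τ)) := by
    intro g hg s hs
    have : Continuous (fun τ : ℝ => ((s, τ) : ℝ × ℝ)) := by fun_prop
    rw [← continuousOn_univ] at this ⊢
    exact hg.comp this (fun τ _ => ⟨hs, mem_univ _⟩)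
  refine ⟨fun s => ∫ τ in a..(a + 2 * π), 2 * inner ℝ (F (Z s τ)) (-deriv F (Z s τ)),
    fun s => ∫ τ in a..(a + 2 * π), 2 * (inner ℝ (F (Z s τ)) (deriv (deriv F) (Z s τ)) +
      inner ℝ (-deriv F (Z s τ)) (-deriv F (Z s τ))), ?_, ?_, ?_, ?_⟩
  · intro s hs
    refine hasDerivAt_param hab (f := fun s τ => ‖F (Z s τ)‖ ^ 2)
      (f' := fun s τ => 2 * inner ℝ (F (Z s τ)) (-deriv F (Z s τ))) ?_ ?_ ?_ hs
    · intro s hs τ
      exact (cs s τ hs).norm_sq
    · exact (K0.norm).pow 2
    · exact continuousOn_const.mul (K0.inner K1.neg)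
  · intro s hs
    refine hasDerivAt_param hab (f := fun s τ => 2 * inner ℝ (F (Z s τ)) (-deriv F (Z s τ)))
      (f' := fun s τ => 2 * (inner ℝ (F (Z s τ)) (deriv (deriv F) (Z s τ)) +
      inner ℝ (-deriv F (Z s τ)) (-deriv F (Z s τ)))) ?_ ?_ ?_ hs
    · intro s hs τ
      have := ((cs s τ hs).inner ℝ ((cs1 s τ hs).neg)).const_mul 2
      simpa using this
    · exact continuousOn_const.mul (K0.inner K1.neg)
    · exact continuousOn_const.mul ((K0.inner K2).add (K1.neg.inner K1.neg))
  · intro s hs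
    have c0 := slice K0 s hs
    have c1 := slice K1 s hs
    have c2 := slice K2 s hs
    -- periodicity
    have hperZ : Z s (a + 2 * π) = Z s a + 2 * π * I := by
      simp only [hZ]; push_cast; ring
    have hper1 : deriv F (Z s a + 2 * π * I) = deriv F (Z s a) := by
      rw [← deriv_comp_add_const]
      apply Filter.EventuallyEq.deriv_eq
      filter_upwards [hopen.mem_nhds (hZneg s a hs)] with ζ hζ
      exact hper ζ hζ
    have hibp : ∫ τ in a..(a + 2 * π), (inner ℝ (F (Z s τ)) (I * (I * deriv (deriv F) (Z s τ))) +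
        inner ℝ (I * deriv F (Z s τ)) (I * deriv F (Z s τ)) : ℝ) = 0 := by
      rw [intervalIntegral.integral_eq_sub_of_hasDerivAt
        (f := fun τ => inner ℝ (F (Z s τ)) (I * deriv F (Z s τ)))]
      · rw [hperZ, hper _ (hZneg s a hs), hper1, sub_self]
      · intro τ _
        exact (cτ s τ hs).inner ℝ ((cτ1 s τ hs).const_mul I)
      · apply Continuous.intervalIntegrable
        exact (c0.inner (continuous_const.mul (continuous_const.mul c2))).add
          ((continuous_const.mul c1).inner (continuous_const.mul c1))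
    have hpt : ∀ τ, (2 * (inner ℝ (F (Z s τ)) (deriv (deriv F) (Z s τ)) +
        inner ℝ (-deriv F (Z s τ)) (-deriv F (Z s τ))) : ℝ) =
        4 * ‖deriv F (Z s τ)‖ ^ 2
        - 2 * (inner ℝ (F (Z s τ)) (I * (I * deriv (deriv F) (Z s τ))) +
        inner ℝ (I * deriv F (Z s τ)) (I * deriv F (Z s τ))) := by
      intro τ
      rw [← mul_assoc I I, I_mul_I, neg_one_mul,
        inner_neg_right (F (Z s τ)) (deriv (deriv F) (Z s τ)),
        real_inner_self_eq_norm_sq, real_inner_self_eq_norm_sq, norm_mul, norm_I, one_mul,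
        norm_neg]
      ring
    have hv2 : ∫ τ in a..(a + 2 * π), (2 * (inner ℝ (F (Z s τ)) (deriv (deriv F) (Z s τ)) +
        inner ℝ (-deriv F (Z s τ)) (-deriv F (Z s τ))) : ℝ) =
        ∫ τ in a..(a + 2 * π), 4 * ‖deriv F (Z s τ)‖ ^ 2 := by
      simp_rw [hpt]
      rw [intervalIntegral.integral_sub, intervalIntegral.integral_const_mul 2, hibp]
      · ring
      · exact (continuous_const.mul (c1.norm.pow 2)).intervalIntegrable _ _
      · exact (continuous_const.mul ((c0.inner (continuous_const.mul (continuous_const.mul c2))).add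
          ((continuous_const.mul c1).inner (continuous_const.mul c1)))).intervalIntegrable _ _
    simp only
    rw [hv2, ← intervalIntegral.integral_const_mul, ← intervalIntegral.integral_const_mul,
      ← intervalIntegral.integral_sub]
    · apply intervalIntegral.integral_mono_on hab
      · exact (continuous_const.mul (c1.norm.pow 2)).intervalIntegrable _ _
      · exact ((continuous_const.mul (c0.norm.pow 2)).sub (continuous_const.mul
          (continuous_const.mul (c0.inner c1.neg)))).intervalIntegrable _ _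
      · intro τ _
        have h := hb (Z s τ) (hZneg s τ hs)
        rw [hZre, neg_neg] at h
        have h2 : ‖2 * deriv F (Z s τ) - ((p / s : ℝ) : ℂ) * F (Z s τ)‖ ^ 2 ≤
            ((2 * p / s + 4 / t) * ‖F (Z s τ)‖) ^ 2 := by
          gcongr
        have h3 : ‖2 * deriv F (Z s τ) - ((p / s : ℝ) : ℂ) * F (Z s τ)‖ ^ 2 =
            4 * ‖deriv F (Z s τ)‖ ^ 2 - 4 * (p / s) * inner ℝ (F (Z s τ)) (deriv F (Z s τ))
              + (p / s) ^ 2 * ‖F (Z s τ)‖ ^ 2 := by
          have e1 : (2 * deriv F (Z s τ) - ((p / s : ℝ) : ℂ) * F (Z s τ)) =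
            (2 : ℝ) • deriv F (Z s τ) - (p / s) • F (Z s τ) := by
            simp [Complex.real_smul]
          rw [e1, norm_sub_sq_real, inner_smul_left, inner_smul_right, norm_smul, norm_smul,
            mul_pow, mul_pow, real_inner_comm]
          simp only [Real.norm_eq_abs, sq_abs, RCLike.conj_to_real]
          ring
        rw [h3] at h2
        rw [inner_neg_right]
        have e2 : (2 * p / s) = 2 * (p / s) := by ring
        have e3 : p ^ 2 / s ^ 2 = (p / s) ^ 2 := by rw [div_pow]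
        rw [e2] at h2 ⊢
        rw [e3]
        nlinarith
    · exact (continuous_const.mul (c0.norm.pow 2)).intervalIntegrable _ _
    · exact (continuous_const.mul
          (continuous_const.mul (c0.inner c1.neg))).intervalIntegrable _ _
  · intro s hs
    have c0 := slice K0 s hs
    have c1 := slice K1 s hs
    simp only
    calc |∫ τ in a..(a + 2 * π), 2 * inner ℝ (F (Z s τ)) (-deriv F (Z s τ))|
        ≤ ∫ τ in a..(a + 2 * π), |2 * inner ℝ (F (Z s τ)) (-deriv F (Z s τ))| :=
          intervalIntegral.abs_integral_le_integral_abs hab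
      _ ≤ ∫ τ in a..(a + 2 * π), (3 * p / s + 4 / t) * ‖F (Z s τ)‖ ^ 2 := by
          apply intervalIntegral.integral_mono_on hab
          · exact (continuous_const.mul (c0.inner c1.neg)).abs.intervalIntegrable _ _
          · exact (continuous_const.mul (c0.norm.pow 2)).intervalIntegrable _ _
          · intro τ _
            have h := hb (Z s τ) (hZneg s τ hs)
            rw [hZre, neg_neg] at h
            have h4 : ‖2 * deriv F (Z s τ)‖ ≤ (3 * p / s + 4 / t) * ‖F (Z s τ)‖ := by
              have h5 := norm_sub_norm_le (2 * deriv F (Z s τ)) (((p / s : ℝ) : ℂ) * F (Z s τ))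
              have h6 : ‖((p / s : ℝ) : ℂ) * F (Z s τ)‖ = (p / s) * ‖F (Z s τ)‖ := by
                rw [norm_mul, Complex.norm_real, Real.norm_eq_abs, abs_of_nonneg (by positivity)]
              rw [h6] at h5
              have e : (3 * p / s + 4 / t) * ‖F (Z s τ)‖ =
                (2 * p / s + 4 / t) * ‖F (Z s τ)‖ + (p / s) * ‖F (Z s τ)‖ := by ring
              rw [e]; linarith
            have h7 : |inner ℝ (F (Z s τ)) (-deriv F (Z s τ))| ≤
                ‖F (Z s τ)‖ * ‖-deriv F (Z s τ)‖ := abs_real_inner_le_norm _ _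
            rw [norm_neg] at h7
            rw [norm_mul] at h4
            simp only [Complex.norm_ofNat] at h4
            rw [abs_mul, abs_two]
            have h8 : ‖F (Z s τ)‖ * (2 * ‖deriv F (Z s τ)‖) ≤
              ‖F (Z s τ)‖ * ((3 * p / s + 4 / t) * ‖F (Z s τ)‖) :=
              mul_le_mul_of_nonneg_left h4 (norm_nonneg _)
            nlinarith
      _ = _ := by rw [intervalIntegral.integral_const_mul]

end Pool.Agent.Helper13.Rel
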